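import Mathlib

open Filter Topology Finset
open scoped ENNReal NNReal

namespace Pool.Agent.Results.MP_45ac3c_an.GammaEqAlpha

/-! ### elementary estimates -/

lemma rpow_le_exp {c x : ℝ} (hc : 0 < c) (hx : 0 ≤ x) : x ^ c ≤ c ^ c * Real.exp x := by
  have h1 : x / c ≤ Real.exp (x / c) := by
    have := Real.add_one_le_exp (x / c)
    linarith
  have h2 : x = c * (x / c) := by field_simp
  calc x ^ c = (c * (x / c)) ^ c := by rw [← h2]
    _ = c ^ c * (x / c) ^ c := Real.mul_rpow hc.le (by positivity)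
    _ ≤ c ^ c * (Real.exp (x / c)) ^ c := by gcongr
    _ = c ^ c * Real.exp x := by
        rw [← Real.exp_mul]
        congr 2
        field_simp

lemma rpow_mul_pow_le {c : ℝ} (hc : 0 < c) {r : ℝ} (hr0 : 0 ≤ r) (hr1 : r < 1) (k : ℕ) :
    (k : ℝ) ^ c * r ^ k ≤ c ^ c * (1 - r) ^ (-c) := by
  have ht : 0 < 1 - r := by linarith
  have h1 : ((k : ℝ) * (1 - r)) ^ c ≤ c ^ c * Real.exp (k * (1 - r)) :=
    rpow_le_exp hc (by positivity)
  have h2 : Real.exp (k * (1 - r)) * r ^ k ≤ 1 := by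
    rw [Real.exp_nat_mul, ← mul_pow]
    apply pow_le_one₀ (by positivity)
    have h3 : r ≤ Real.exp (-(1 - r)) := by
      have := Real.add_one_le_exp (-(1 - r))
      linarith
    calc Real.exp (1 - r) * r ≤ Real.exp (1 - r) * Real.exp (-(1 - r)) := by gcongr
      _ = 1 := by rw [← Real.exp_add]; simp
  rw [Real.mul_rpow (by positivity) ht.le] at h1
  rw [Real.rpow_neg ht.le, ← div_eq_mul_inv, le_div_iff₀ (by positivity)]
  calc (k : ℝ) ^ c * r ^ k * (1 - r) ^ c = ((k : ℝ) ^ c * (1 - r) ^ c) * r ^ k := by ring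
    _ ≤ (c ^ c * Real.exp (k * (1 - r))) * r ^ k := by gcongr
    _ = c ^ c * (Real.exp (k * (1 - r)) * r ^ k) := by ring
    _ ≤ c ^ c * 1 := by gcongr
    _ = c ^ c := mul_one _

lemma half_le {r : ℝ} (hr0 : 0 ≤ r) (hr1 : r < 1) : (1 - r) / 2 ≤ 1 - √r ∧ √r < 1 := by
  have h1 : √r < 1 := by
    rw [Real.sqrt_lt' one_pos]; simpa using hr1
  have h0 : 0 ≤ √r := Real.sqrt_nonneg r
  have h2 : r = √r * √r := (Real.mul_self_sqrt hr0).symm
  refine ⟨?_, h1⟩
  nlinarith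

lemma geom_le {r : ℝ} (hr0 : 0 ≤ r) (hr1 : r < 1) (n : ℕ) :
    ∑ k ∈ range n, r ^ k ≤ (1 - r)⁻¹ := by
  rw [geom_sum_eq hr1.ne, ← neg_div_neg_eq, neg_sub, neg_sub, ← one_div]
  have h1 : 0 < 1 - r := by linarith
  gcongr
  have := pow_nonneg hr0 n
  linarith

lemma sum_rpow_mul_pow_le {c : ℝ} (hc : 0 < c) {r : ℝ} (hr0 : 0 ≤ r) (hr1 : r < 1) (n : ℕ) :
    ∑ k ∈ range n, (k : ℝ) ^ c * r ^ k ≤ c ^ c * 2 ^ (c + 1) * (1 - r) ^ (-(c + 1)) := by
  obtain ⟨h1, h2⟩ := half_le hr0 hr1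
  have h0 : 0 ≤ √r := Real.sqrt_nonneg r
  have ht : 0 < 1 - r := by linarith
  have ht' : 0 < 1 - √r := by linarith
  have hr : r = √r * √r := (Real.mul_self_sqrt hr0).symm
  calc ∑ k ∈ range n, (k : ℝ) ^ c * r ^ k
      = ∑ k ∈ range n, ((k : ℝ) ^ c * √r ^ k) * √r ^ k := by
        apply sum_congr rfl
        intro k _
        conv_lhs => rw [hr, mul_pow]
        ring
    _ ≤ ∑ k ∈ range n, (c ^ c * (1 - √r) ^ (-c)) * √r ^ k := by
        apply sum_le_sum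
        intro k _
        exact mul_le_mul_of_nonneg_right (rpow_mul_pow_le hc h0 h2 k) (pow_nonneg h0 k)
    _ = (c ^ c * (1 - √r) ^ (-c)) * ∑ k ∈ range n, √r ^ k := by rw [mul_sum]
    _ ≤ (c ^ c * (1 - √r) ^ (-c)) * (1 - √r)⁻¹ := by
        gcongr
        exact geom_le h0 h2 n
    _ = c ^ c * (1 - √r) ^ (-(c + 1)) := by
        rw [neg_add, Real.rpow_add ht', Real.rpow_neg_one]
        ring
    _ ≤ c ^ c * ((1 - r) / 2) ^ (-(c + 1)) := by
        gcongr ?_ * ?_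
        rw [Real.rpow_neg ht'.le, Real.rpow_neg (by positivity)]
        gcongr
    _ = c ^ c * 2 ^ (c + 1) * (1 - r) ^ (-(c + 1)) := by
        rw [Real.div_rpow ht.le (by norm_num), Real.rpow_neg (by norm_num : (0:ℝ) ≤ 2)]
        field_simp

lemma bernoulli_step {b : ℝ} (hb0 : 0 < b) (hb1 : b < 1) (p : ℕ) :
    (1 - b) * ((p : ℝ) + 1) ^ (-b) ≤ ((p : ℝ) + 1) ^ (1 - b) - (p : ℝ) ^ (1 - b) := by
  have hp : (0 : ℝ) < (p : ℝ) + 1 := by positivity
  have h1 : (p : ℝ) = ((p : ℝ) + 1) * (1 + (-1 / ((p : ℝ) + 1))) := by field_simp; ring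
  have h2 : (1 + (-1 / ((p : ℝ) + 1))) ^ (1 - b) ≤ 1 + (1 - b) * (-1 / ((p : ℝ) + 1)) := by
    apply rpow_one_add_le_one_add_mul_self _ (by linarith) (by linarith)
    rw [le_div_iff₀ hp]
    have : (0 : ℝ) ≤ p := by positivity
    linarith
  have h3 : (0 : ℝ) ≤ 1 + (-1 / ((p : ℝ) + 1)) := by
    have : 1 / ((p : ℝ) + 1) ≤ 1 := by
      rw [div_le_one hp]
      have : (0 : ℝ) ≤ p := by positivity
      linarith
    rw [neg_div]; linarith
  have h4 : (p : ℝ) ^ (1 - b) ≤ ((p : ℝ) + 1) ^ (1 - b) * (1 + (1 - b) * (-1 / ((p : ℝ) + 1))) := by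
    calc (p : ℝ) ^ (1 - b) = (((p : ℝ) + 1) * (1 + (-1 / ((p : ℝ) + 1)))) ^ (1 - b) := by rw [← h1]
      _ = ((p : ℝ) + 1) ^ (1 - b) * (1 + (-1 / ((p : ℝ) + 1))) ^ (1 - b) :=
          Real.mul_rpow hp.le h3
      _ ≤ _ := by gcongr
  have h5 : ((p : ℝ) + 1) ^ (-b) = ((p : ℝ) + 1) ^ (1 - b) / ((p : ℝ) + 1) := by
    rw [← Real.rpow_sub_one hp.ne']
    congr 1
    ring
  rw [h5]
  have h6 : ((p : ℝ) + 1) ^ (1 - b) * (1 + (1 - b) * (-1 / ((p : ℝ) + 1))) =
      ((p : ℝ) + 1) ^ (1 - b) - (1 - b) * (((p : ℝ) + 1) ^ (1 - b) / ((p : ℝ) + 1)) := by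
    field_simp
    ring
  linarith

lemma abel_sum {g : ℕ → ℝ} (hg0 : g 0 = 0) (r : ℝ) (n : ℕ) :
    ∑ p ∈ range n, (g (p + 1) - g p) * r ^ (p + 1) =
      g n * r ^ n + (1 - r) * ∑ p ∈ range n, g p * r ^ p := by
  induction n with
  | zero => simp [hg0]
  | succ n ih =>
    rw [sum_range_succ, ih, sum_range_succ]
    ring

lemma sum_neg_rpow_le {b : ℝ} (hb : 0 < b) (hb1 : b ≠ 1) : ∃ C : ℝ, 0 < C ∧
    ∀ r : ℝ, 0 ≤ r → r < 1 → ∀ n : ℕ,
      ∑ p ∈ range n, ((p : ℝ) + 1) ^ (-b) * r ^ (p + 1) ≤ C * (1 - r) ^ (-(max b 1 - b)) := by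
  rcases lt_or_gt_of_ne hb1 with hlt | hgt
  · -- b < 1
    set c : ℝ := 1 - b with hc
    have hcpos : 0 < c := by linarith
    refine ⟨c⁻¹ * (c ^ c + c ^ c * 2 ^ (c + 1)), by positivity, ?_⟩
    intro r hr0 hr1 n
    have ht : 0 < 1 - r := by linarith
    rw [max_eq_right hlt.le]
    have h1 : ∑ p ∈ range n, ((p : ℝ) + 1) ^ (-b) * r ^ (p + 1) ≤
        c⁻¹ * ∑ p ∈ range n, ((((p + 1 : ℕ) : ℝ)) ^ c - (p : ℝ) ^ c) * r ^ (p + 1) := by
      rw [mul_sum]
      apply sum_le_sum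
      intro p _
      rw [← mul_assoc]
      gcongr
      rw [inv_mul_eq_div, le_div_iff₀ hcpos]
      have := bernoulli_step hb hlt p
      push_cast
      rw [hc]
      linarith
    have h2 := abel_sum (g := fun p : ℕ => (p : ℝ) ^ c) (by
      show ((0 : ℕ) : ℝ) ^ c = 0
      rw [Nat.cast_zero, Real.zero_rpow hcpos.ne']) r n
    rw [h2] at h1
    have h3 := rpow_mul_pow_le hcpos hr0 hr1 n
    have h4 := sum_rpow_mul_pow_le hcpos hr0 hr1 n
    have h5 : (1 - r) * (c ^ c * 2 ^ (c + 1) * (1 - r) ^ (-(c + 1))) =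
        c ^ c * 2 ^ (c + 1) * (1 - r) ^ (-c) := by
      have : (1 - r) ^ (-c) = (1 - r) * (1 - r) ^ (-(c + 1)) := by
        nth_rewrite 2 [← Real.rpow_one (1 - r)]
        rw [← Real.rpow_add ht]
        congr 1
        ring
      rw [this]
      ring
    calc ∑ p ∈ range n, ((p : ℝ) + 1) ^ (-b) * r ^ (p + 1) ≤ _ := h1
      _ ≤ c⁻¹ * (c ^ c * (1 - r) ^ (-c) +
            (1 - r) * (c ^ c * 2 ^ (c + 1) * (1 - r) ^ (-(c + 1)))) := by gcongr
      _ = c⁻¹ * (c ^ c + c ^ c * 2 ^ (c + 1)) * (1 - r) ^ (-c) := by rw [h5]; ring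
  · -- b > 1
    have hs : Summable (fun p : ℕ => ((p : ℝ) + 1) ^ (-b)) := by
      have h1 := (summable_nat_add_iff 1).mpr (Real.summable_nat_rpow.mpr (by linarith : -b < -1))
      refine h1.congr ?_
      intro p
      push_cast
      rfl
    have hnn : ∀ p : ℕ, 0 ≤ ((p : ℝ) + 1) ^ (-b) := fun p => by positivity
    have hpos : 0 ≤ ∑' p : ℕ, ((p : ℝ) + 1) ^ (-b) := tsum_nonneg hnn
    refine ⟨(∑' p : ℕ, ((p : ℝ) + 1) ^ (-b)) + 1, by linarith, ?_⟩
    intro r hr0 hr1 n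
    have ht : 0 < 1 - r := by linarith
    rw [max_eq_left hgt.le, sub_self, neg_zero, Real.rpow_zero, mul_one]
    calc ∑ p ∈ range n, ((p : ℝ) + 1) ^ (-b) * r ^ (p + 1)
        ≤ ∑ p ∈ range n, ((p : ℝ) + 1) ^ (-b) := by
          apply sum_le_sum
          intro p _
          have : r ^ (p + 1) ≤ 1 := pow_le_one₀ hr0 hr1.le
          exact mul_le_of_le_one_right (hnn p) this
      _ ≤ ∑' p : ℕ, ((p : ℝ) + 1) ^ (-b) := hs.sum_le_tsum _ (fun p _ => hnn p)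
      _ ≤ _ := by linarith

/-! ### the Hilbert-Schmidt part -/

lemma sum_shift {u : ℕ → ℝ} (hu : ∀ k, 0 ≤ u k) (n j : ℕ) :
    ∑ i ∈ range n, (if j ≤ i then u (i - j) else 0) ≤ ∑ k ∈ range n, u k := by
  rw [← sum_filter]
  have hinj : Set.InjOn (fun i => i - j) ((range n).filter (fun i => j ≤ i) : Finset ℕ) := by
    intro a ha b hb hab
    simp only [coe_filter, mem_range, Set.mem_ofPred_eq] at ha hb
    simp only at hab
    omega
  rw [← sum_image (f := u) hinj]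
  apply sum_le_sum_of_subset_of_nonneg
  · intro k hk
    simp only [mem_image, mem_filter, mem_range] at hk ⊢
    obtain ⟨i, ⟨h1, h2⟩, h3⟩ := hk
    omega
  · intro k _ _
    exact hu k

lemma sum_shift' {u : ℕ → ℝ} (hu : ∀ k, 0 ≤ u k) (n i : ℕ) (hi : i < n) :
    ∑ j ∈ range n, (if j ≤ i then u (i - j) else 0) ≤ ∑ k ∈ range n, u k := by
  rw [← sum_filter]
  have hinj : Set.InjOn (fun j => i - j) ((range n).filter (fun j => j ≤ i) : Finset ℕ) := by
    intro a ha b hb hab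
    simp only [coe_filter, mem_range, Set.mem_ofPred_eq] at ha hb
    simp only at hab
    omega
  rw [← sum_image (f := u) hinj]
  apply sum_le_sum_of_subset_of_nonneg
  · intro k hk
    simp only [mem_image, mem_filter, mem_range] at hk ⊢
    obtain ⟨i, ⟨h1, h2⟩, h3⟩ := hk
    omega
  · intro k _ _
    exact hu k

/-- the squared size of the `(i,j)` entry, in terms of `p = j`, `q = N - i`, `k = i - j` -/
noncomputable def F (b r : ℝ) (p q k : ℕ) : ℝ :=
  ((1 + (k : ℝ) / ((p : ℝ) + 1)) * (1 + (k : ℝ) / ((q : ℝ) + 1))) ^ b * r ^ (2 * k)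

lemma F_nonneg {b r : ℝ} (hr0 : 0 ≤ r) (p q k : ℕ) : 0 ≤ F b r p q k := by
  unfold F; positivity

lemma F_near {b r : ℝ} (hb : 0 < b) (hr0 : 0 ≤ r) {p q k : ℕ} (h1 : k ≤ p + 1)
    (h2 : k ≤ q + 1) : F b r p q k ≤ 4 ^ b * r ^ (2 * k) := by
  unfold F
  gcongr
  have e1 : (k : ℝ) / ((p : ℝ) + 1) ≤ 1 := by
    rw [div_le_one (by positivity)]
    exact_mod_cast h1
  have e2 : (k : ℝ) / ((q : ℝ) + 1) ≤ 1 := by
    rw [div_le_one (by positivity)]
    exact_mod_cast h2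
  calc (1 + (k : ℝ) / ((p : ℝ) + 1)) * (1 + (k : ℝ) / ((q : ℝ) + 1)) ≤ (1 + 1) * (1 + 1) := by
        gcongr
    _ = 4 := by norm_num

lemma F_far1 {b r : ℝ} (hb : 0 < b) (hr0 : 0 ≤ r) (hr1 : r < 1) {p q k : ℕ} (h1 : p + 1 < k)
    (h2 : k ≤ q + 1) :
    F b r p q k ≤ 4 ^ b * (((k : ℝ) ^ b * r ^ k) * (((p : ℝ) + 1) ^ (-b) * r ^ (p + 1))) := by
  unfold F
  have hk : (0 : ℝ) < k := by exact_mod_cast (by omega : 0 < k)
  have e1 : 1 + (k : ℝ) / ((p : ℝ) + 1) ≤ 2 * (k / ((p : ℝ) + 1)) := by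
    have : 1 ≤ (k : ℝ) / ((p : ℝ) + 1) := by
      rw [le_div_iff₀ (by positivity)]
      have : ((p + 1 : ℕ) : ℝ) ≤ k := by exact_mod_cast h1.le
      push_cast at this
      linarith
    linarith
  have e2 : (k : ℝ) / ((q : ℝ) + 1) ≤ 1 := by
    rw [div_le_one (by positivity)]
    exact_mod_cast h2
  have e3 : (1 + (k : ℝ) / ((p : ℝ) + 1)) * (1 + (k : ℝ) / ((q : ℝ) + 1)) ≤
      4 * (k / ((p : ℝ) + 1)) := by
    calc (1 + (k : ℝ) / ((p : ℝ) + 1)) * (1 + (k : ℝ) / ((q : ℝ) + 1)) ≤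
        (2 * (k / ((p : ℝ) + 1))) * (1 + 1) := by gcongr
      _ = 4 * (k / ((p : ℝ) + 1)) := by ring
  have e4 : r ^ (2 * k) ≤ r ^ k * r ^ (p + 1) := by
    rw [two_mul, pow_add]
    gcongr ?_ * ?_
    exact pow_le_pow_of_le_one hr0 hr1.le h1.le
  calc ((1 + (k : ℝ) / ((p : ℝ) + 1)) * (1 + (k : ℝ) / ((q : ℝ) + 1))) ^ b * r ^ (2 * k)
      ≤ (4 * (k / ((p : ℝ) + 1))) ^ b * (r ^ k * r ^ (p + 1)) := by gcongr
    _ = _ := by
      rw [Real.mul_rpow (by norm_num) (by positivity), Real.div_rpow (by positivity) (by positivity),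
        Real.rpow_neg (by positivity)]
      ring

lemma F_symm (b r : ℝ) (p q k : ℕ) : F b r p q k = F b r q p k := by
  unfold F; rw [mul_comm (1 + (k : ℝ) / ((p : ℝ) + 1))]

lemma F_far3 {b r : ℝ} (hb : 0 < b) (hr0 : 0 ≤ r) (hr1 : r < 1) {p q k : ℕ} (h1 : p + 1 < k)
    (h2 : q + 1 < k) :
    F b r p q k ≤ 4 ^ b * (((2 * b) ^ (2 * b) * (1 - r) ^ (-(2 * b))) *
      ((((p : ℝ) + 1) ^ (-b) * √r ^ (p + 1)) * (((q : ℝ) + 1) ^ (-b) * √r ^ (q + 1)))) := by
  unfold F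
  obtain ⟨-, hs1⟩ := half_le hr0 hr1
  have hs0 : 0 ≤ √r := Real.sqrt_nonneg r
  have hk : (0 : ℝ) < k := by exact_mod_cast (by omega : 0 < k)
  have e : ∀ m : ℕ, m + 1 < k → 1 + (k : ℝ) / ((m : ℝ) + 1) ≤ 2 * (k / ((m : ℝ) + 1)) := by
    intro m hm
    have : 1 ≤ (k : ℝ) / ((m : ℝ) + 1) := by
      rw [le_div_iff₀ (by positivity)]
      have : ((m + 1 : ℕ) : ℝ) ≤ k := by exact_mod_cast hm.le
      push_cast at this
      linarith
    linarith
  have e4 : r ^ (2 * k) ≤ r ^ k * (√r ^ (p + 1) * √r ^ (q + 1)) := by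
    rw [two_mul, pow_add]
    gcongr
    have : r ^ k = √r ^ (2 * k) := by
      rw [pow_mul, Real.sq_sqrt hr0]
    rw [this, ← pow_add]
    exact pow_le_pow_of_le_one hs0 hs1.le (by omega)
  have e5 := rpow_mul_pow_le (c := 2 * b) (by positivity) hr0 hr1 k
  calc ((1 + (k : ℝ) / ((p : ℝ) + 1)) * (1 + (k : ℝ) / ((q : ℝ) + 1))) ^ b * r ^ (2 * k)
      ≤ ((2 * (k / ((p : ℝ) + 1))) * (2 * (k / ((q : ℝ) + 1)))) ^ b *
          (r ^ k * (√r ^ (p + 1) * √r ^ (q + 1))) := by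
        gcongr
        · exact e p h1
        · exact e q h2
    _ = 4 ^ b * (((k : ℝ) ^ (2 * b) * r ^ k) *
      ((((p : ℝ) + 1) ^ (-b) * √r ^ (p + 1)) * (((q : ℝ) + 1) ^ (-b) * √r ^ (q + 1)))) := by
      have : (2 * ((k : ℝ) / ((p : ℝ) + 1))) * (2 * (k / ((q : ℝ) + 1))) =
          4 * ((k * k) * (((p : ℝ) + 1)⁻¹ * ((q : ℝ) + 1)⁻¹)) := by
        field_simp
        norm_num
      rw [this, Real.mul_rpow (by norm_num) (by positivity), Real.mul_rpow (by positivity) (by positivity),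
        Real.mul_rpow (by positivity) (by positivity), Real.mul_rpow (by positivity) (by positivity),
        Real.inv_rpow (by positivity), Real.inv_rpow (by positivity), ← Real.rpow_neg (by positivity),
        ← Real.rpow_neg (by positivity), two_mul, Real.rpow_add hk]
      ring
    _ ≤ _ := by gcongr

lemma F_far {b r : ℝ} (hb : 0 < b) (hr0 : 0 ≤ r) (hr1 : r < 1) {p q k : ℕ}
    (h : ¬ (k ≤ p + 1 ∧ k ≤ q + 1)) :
    F b r p q k ≤ 4 ^ b * (((k : ℝ) ^ b * r ^ k) * (((p : ℝ) + 1) ^ (-b) * r ^ (p + 1)) +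
      ((k : ℝ) ^ b * r ^ k) * (((q : ℝ) + 1) ^ (-b) * r ^ (q + 1)) +
      ((2 * b) ^ (2 * b) * (1 - r) ^ (-(2 * b))) *
      ((((p : ℝ) + 1) ^ (-b) * √r ^ (p + 1)) * (((q : ℝ) + 1) ^ (-b) * √r ^ (q + 1)))) := by
  have ht : 0 < 1 - r := by linarith
  have n1 : 0 ≤ ((k : ℝ) ^ b * r ^ k) * (((p : ℝ) + 1) ^ (-b) * r ^ (p + 1)) := by positivity
  have n2 : 0 ≤ ((k : ℝ) ^ b * r ^ k) * (((q : ℝ) + 1) ^ (-b) * r ^ (q + 1)) := by positivity
  have n3 : 0 ≤ ((2 * b) ^ (2 * b) * (1 - r) ^ (-(2 * b))) *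
      ((((p : ℝ) + 1) ^ (-b) * √r ^ (p + 1)) * (((q : ℝ) + 1) ^ (-b) * √r ^ (q + 1))) := by
    positivity
  by_cases h1 : k ≤ p + 1
  · have h2 : q + 1 < k := by
      by_contra h2
      exact h ⟨h1, not_lt.mp h2⟩
    rw [F_symm]
    refine (F_far1 hb hr0 hr1 h2 h1).trans ?_
    gcongr
    linarith
  · push Not at h1
    by_cases h2 : k ≤ q + 1
    · refine (F_far1 hb hr0 hr1 h1 h2).trans ?_
      gcongr
      linarith
    · push Not at h2
      refine (F_far3 hb hr0 hr1 h1 h2).trans ?_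
      gcongr
      linarith

lemma hs_bound {b : ℝ} (hb : 0 < b) (hb1 : b ≠ 1) : ∃ C : ℝ, 0 < C ∧
    ∀ r : ℝ, 0 ≤ r → r < 1 → ∀ N : ℕ,
      ∑ i ∈ range (N + 1), ∑ j ∈ range (N + 1),
        (if j ≤ i ∧ ¬ (i - j ≤ j + 1 ∧ i - j ≤ N - i + 1) then F b r j (N - i) (i - j) else 0) ≤
      C * (1 - r) ^ (-(2 * max b 1)) := by
  obtain ⟨C0, hC0, hE3⟩ := sum_neg_rpow_le hb hb1
  set s := max b 1 with hs
  have hbs : b ≤ s := le_max_left _ _
  have hs1 : 1 ≤ s := le_max_right _ _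
  set K1 : ℝ := b ^ b * 2 ^ (b + 1) with hK1
  set K2 : ℝ := (2 * b) ^ (2 * b) with hK2
  have hK1pos : 0 < K1 := by positivity
  have hK2pos : 0 < K2 := by positivity
  refine ⟨4 ^ b * (K1 * C0 + K1 * C0 + K2 * ((C0 * 2 ^ (s - b)) * (C0 * 2 ^ (s - b)))),
    by positivity, ?_⟩
  intro r hr0 hr1 N
  have ht : 0 < 1 - r := by linarith
  obtain ⟨hhalf, hs1'⟩ := half_le hr0 hr1
  have hs0 : 0 ≤ √r := Real.sqrt_nonneg r
  set u : ℕ → ℝ := fun k => (k : ℝ) ^ b * r ^ k with hu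
  set v : ℕ → ℝ := fun p => ((p : ℝ) + 1) ^ (-b) * r ^ (p + 1) with hv
  set w : ℕ → ℝ := fun p => ((p : ℝ) + 1) ^ (-b) * √r ^ (p + 1) with hw
  have hu0 : ∀ k, 0 ≤ u k := fun k => by simp only [hu]; positivity
  have hv0 : ∀ k, 0 ≤ v k := fun k => by simp only [hv]; positivity
  have hw0 : ∀ k, 0 ≤ w k := fun k => by simp only [hw]; positivity
  have hU : ∑ k ∈ range (N + 1), u k ≤ K1 * (1 - r) ^ (-(b + 1)) := sum_rpow_mul_pow_le hb hr0 hr1 _
  have hV : ∑ k ∈ range (N + 1), v k ≤ C0 * (1 - r) ^ (-(s - b)) := hE3 r hr0 hr1 _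
  have hW : ∑ k ∈ range (N + 1), w k ≤ (C0 * 2 ^ (s - b)) * (1 - r) ^ (-(s - b)) := by
    refine (hE3 (√r) hs0 hs1' _).trans ?_
    rw [mul_assoc]
    gcongr
    have ht' : 0 < 1 - √r := by linarith
    calc (1 - √r) ^ (-(s - b)) ≤ ((1 - r) / 2) ^ (-(s - b)) := by
          rw [Real.rpow_neg ht'.le, Real.rpow_neg (by positivity)]
          have : 0 ≤ s - b := by linarith
          gcongr
      _ = 2 ^ (s - b) * (1 - r) ^ (-(s - b)) := by
          rw [Real.div_rpow ht.le (by norm_num), Real.rpow_neg (by norm_num : (0:ℝ) ≤ 2)]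
          field_simp
  have hU0 : 0 ≤ ∑ k ∈ range (N + 1), u k := sum_nonneg fun k _ => hu0 k
  have hV0 : 0 ≤ ∑ k ∈ range (N + 1), v k := sum_nonneg fun k _ => hv0 k
  have hW0 : 0 ≤ ∑ k ∈ range (N + 1), w k := sum_nonneg fun k _ => hw0 k
  set c2 : ℝ := K2 * (1 - r) ^ (-(2 * b)) with hc2
  have hc2' : 0 ≤ c2 := by positivity
  -- pointwise domination
  have hdom : ∀ i ∈ range (N + 1), ∀ j ∈ range (N + 1),
      (if j ≤ i ∧ ¬ (i - j ≤ j + 1 ∧ i - j ≤ N - i + 1) then F b r j (N - i) (i - j) else 0) ≤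
      4 ^ b * ((if j ≤ i then u (i - j) else 0) * v j + (if j ≤ i then u (i - j) else 0) * v (N - i)
        + c2 * (w j * w (N - i))) := by
    intro i _ j _
    have nn : 0 ≤ c2 * (w j * w (N - i)) := mul_nonneg hc2' (mul_nonneg (hw0 _) (hw0 _))
    by_cases hji : j ≤ i
    · by_cases hn : (i - j ≤ j + 1 ∧ i - j ≤ N - i + 1)
      · simp only [hji, hn, if_true]
        have := mul_nonneg (hu0 (i - j)) (hv0 j)
        have := mul_nonneg (hu0 (i - j)) (hv0 (N - i))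
        positivity
      · simp only [hji, hn, not_false_eq_true, and_true, if_true]
        exact F_far hb hr0 hr1 hn
    · simp only [hji, false_and, if_false]
      have : 0 ≤ 4 ^ b * (0 * v j + 0 * v (N - i) + c2 * (w j * w (N - i))) := by
        rw [zero_mul, zero_mul]; positivity
      exact this
  have hsum1 : ∑ i ∈ range (N + 1), ∑ j ∈ range (N + 1), (if j ≤ i then u (i - j) else 0) * v j ≤
      (∑ k ∈ range (N + 1), u k) * ∑ k ∈ range (N + 1), v k := by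
    rw [sum_comm, mul_sum]
    apply sum_le_sum
    intro j _
    rw [← sum_mul]
    exact mul_le_mul_of_nonneg_right (sum_shift hu0 _ _) (hv0 j)
  have hsum2 : ∑ i ∈ range (N + 1), ∑ j ∈ range (N + 1), (if j ≤ i then u (i - j) else 0) * v (N - i) ≤
      (∑ k ∈ range (N + 1), u k) * ∑ k ∈ range (N + 1), v k := by
    rw [← sum_range_reflect v, mul_sum]
    apply sum_le_sum
    intro i hi
    rw [← sum_mul]
    have : N + 1 - 1 - i = N - i := by omega
    rw [this]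
    exact mul_le_mul_of_nonneg_right (sum_shift' hu0 _ _ (mem_range.mp hi)) (hv0 _)
  have hsum3 : ∑ i ∈ range (N + 1), ∑ j ∈ range (N + 1), c2 * (w j * w (N - i)) =
      c2 * ((∑ k ∈ range (N + 1), w k) * ∑ k ∈ range (N + 1), w k) := by
    have : ∑ k ∈ range (N + 1), w (N - k) = ∑ k ∈ range (N + 1), w k := by
      have := sum_range_reflect w (N + 1)
      simpa using this
    calc _ = c2 * ∑ i ∈ range (N + 1), (∑ j ∈ range (N + 1), w j) * w (N - i) := by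
          rw [mul_sum]
          apply sum_congr rfl
          intro i _
          rw [sum_mul, mul_sum]
      _ = _ := by rw [← mul_sum, this]
  have ex1 : (1 - r) ^ (-(b + 1)) * (1 - r) ^ (-(s - b)) ≤ (1 - r) ^ (-(2 * s)) := by
    rw [← Real.rpow_add ht]
    apply Real.rpow_le_rpow_of_exponent_ge ht (by linarith)
    linarith
  have ex2 : (1 - r) ^ (-(2 * b)) * ((1 - r) ^ (-(s - b)) * (1 - r) ^ (-(s - b))) =
      (1 - r) ^ (-(2 * s)) := by
    rw [← Real.rpow_add ht, ← Real.rpow_add ht]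
    congr 1
    ring
  calc _ ≤ ∑ i ∈ range (N + 1), ∑ j ∈ range (N + 1), 4 ^ b * ((if j ≤ i then u (i - j) else 0) * v j
        + (if j ≤ i then u (i - j) else 0) * v (N - i) + c2 * (w j * w (N - i))) :=
        sum_le_sum fun i hi => sum_le_sum fun j hj => hdom i hi j hj
    _ = 4 ^ b * ((∑ i ∈ range (N + 1), ∑ j ∈ range (N + 1), (if j ≤ i then u (i - j) else 0) * v j)
        + (∑ i ∈ range (N + 1), ∑ j ∈ range (N + 1), (if j ≤ i then u (i - j) else 0) * v (N - i))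
        + ∑ i ∈ range (N + 1), ∑ j ∈ range (N + 1), c2 * (w j * w (N - i))) := by
        simp only [mul_sum, sum_add_distrib, mul_add]
    _ ≤ 4 ^ b * ((K1 * (1 - r) ^ (-(b + 1))) * (C0 * (1 - r) ^ (-(s - b)))
        + (K1 * (1 - r) ^ (-(b + 1))) * (C0 * (1 - r) ^ (-(s - b)))
        + c2 * (((C0 * 2 ^ (s - b)) * (1 - r) ^ (-(s - b))) *
          ((C0 * 2 ^ (s - b)) * (1 - r) ^ (-(s - b))))) := by
        rw [hsum3]
        have m1 := hsum1.trans (mul_le_mul hU hV hV0 (by positivity))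
        have m2 := hsum2.trans (mul_le_mul hU hV hV0 (by positivity))
        have m3 := mul_le_mul hW hW hW0 (by positivity)
        gcongr
    _ = 4 ^ b * ((K1 * C0 + K1 * C0) * ((1 - r) ^ (-(b + 1)) * (1 - r) ^ (-(s - b)))
        + (K2 * ((C0 * 2 ^ (s - b)) * (C0 * 2 ^ (s - b)))) *
          ((1 - r) ^ (-(2 * b)) * ((1 - r) ^ (-(s - b)) * (1 - r) ^ (-(s - b))))) := by
        rw [hc2]; ring
    _ ≤ 4 ^ b * ((K1 * C0 + K1 * C0) * (1 - r) ^ (-(2 * s))
        + (K2 * ((C0 * 2 ^ (s - b)) * (C0 * 2 ^ (s - b)))) * (1 - r) ^ (-(2 * s))) := by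
        rw [ex2]
        gcongr
    _ = _ := by ring

/-! ### operator bound for matrices -/

lemma op_bound {n : ℕ} (A : Matrix (Fin n) (Fin n) ℂ) (B1 B2 : Fin n → Fin n → ℝ)
    (hB1 : ∀ i j, 0 ≤ B1 i j)
    (hA : ∀ i j, ‖A i j‖ ≤ B1 i j + B2 i j) {S Q : ℝ} (hS : 0 ≤ S) (hQ : 0 ≤ Q)
    (hrow : ∀ i, ∑ j, B1 i j ≤ S) (hcol : ∀ j, ∑ i, B1 i j ≤ S)
    (hhs : ∑ i, ∑ j, (B2 i j) ^ 2 ≤ Q ^ 2) :
    ‖Matrix.toEuclideanCLM (𝕜 := ℂ) A‖ ≤ 2 * (S + Q) := by
  refine ContinuousLinearMap.opNorm_le_bound _ (by positivity) fun x => ?_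
  refine (sq_le_sq₀ (by positivity) (by positivity)).mp ?_
  rw [EuclideanSpace.norm_sq_eq, Matrix.ofLp_toEuclideanCLM]
  set X : ℝ := ∑ j, ‖x j‖ ^ 2 with hX
  have hxn : ‖x‖ ^ 2 = X := by rw [EuclideanSpace.norm_sq_eq]
  have hX0 : 0 ≤ X := by positivity
  have hpt : ∀ i, ‖(A.mulVec x.ofLp) i‖ ^ 2 ≤
      2 * (S * ∑ j, B1 i j * ‖x j‖ ^ 2) + 2 * ((∑ j, (B2 i j) ^ 2) * X) := by
    intro i
    have h1 : ‖(A.mulVec x.ofLp) i‖ ≤ (∑ j, B1 i j * ‖x j‖) + ∑ j, B2 i j * ‖x j‖ := by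
      rw [← sum_add_distrib]
      calc ‖(A.mulVec x.ofLp) i‖ = ‖∑ j, A i j * x j‖ := rfl
        _ ≤ ∑ j, ‖A i j * x j‖ := norm_sum_le _ _
        _ ≤ ∑ j, (B1 i j * ‖x j‖ + B2 i j * ‖x j‖) := by
          apply sum_le_sum
          intro j _
          rw [norm_mul, ← add_mul]
          exact mul_le_mul_of_nonneg_right (hA i j) (norm_nonneg _)
    have h2 : (∑ j, B1 i j * ‖x j‖) ^ 2 ≤ S * ∑ j, B1 i j * ‖x j‖ ^ 2 := by
      have := sum_sq_le_sum_mul_sum_of_sq_le_mul (s := univ) (r := fun j => B1 i j * ‖x j‖)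
        (f := fun j => B1 i j) (g := fun j => B1 i j * ‖x j‖ ^ 2) (fun j _ => hB1 i j)
        (fun j _ => mul_nonneg (hB1 i j) (by positivity)) (fun j _ => le_of_eq (by ring))
      refine this.trans ?_
      have h0 : 0 ≤ ∑ j, B1 i j * ‖x j‖ ^ 2 :=
        sum_nonneg fun j _ => mul_nonneg (hB1 i j) (by positivity)
      exact mul_le_mul_of_nonneg_right (hrow i) h0
    have h3 : (∑ j, B2 i j * ‖x j‖) ^ 2 ≤ (∑ j, (B2 i j) ^ 2) * X :=
      sum_mul_sq_le_sq_mul_sq _ _ _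
    have h4 : ‖(A.mulVec x.ofLp) i‖ ^ 2 ≤
        ((∑ j, B1 i j * ‖x j‖) + ∑ j, B2 i j * ‖x j‖) ^ 2 := by
      gcongr
    nlinarith [sq_nonneg ((∑ j, B1 i j * ‖x j‖) - ∑ j, B2 i j * ‖x j‖)]
  have h5 : ∑ i, ∑ j, B1 i j * ‖x j‖ ^ 2 ≤ S * X := by
    rw [sum_comm, hX, mul_sum]
    apply sum_le_sum
    intro j _
    rw [← sum_mul]
    exact mul_le_mul_of_nonneg_right (hcol j) (by positivity)
  calc ∑ i, ‖(A.mulVec x.ofLp) i‖ ^ 2
      ≤ ∑ i, (2 * (S * ∑ j, B1 i j * ‖x j‖ ^ 2) + 2 * ((∑ j, (B2 i j) ^ 2) * X)) :=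
        sum_le_sum fun i _ => hpt i
    _ = 2 * (S * ∑ i, ∑ j, B1 i j * ‖x j‖ ^ 2) + 2 * ((∑ i, ∑ j, (B2 i j) ^ 2) * X) := by
        rw [sum_add_distrib]
        simp only [mul_sum, sum_mul]
    _ ≤ 2 * (S * (S * X)) + 2 * (Q ^ 2 * X) := by gcongr
    _ ≤ (2 * (S + Q) * ‖x‖) ^ 2 := by
        rw [mul_pow, hxn]
        have : 2 * (S * (S * X)) + 2 * (Q ^ 2 * X) = (2 * S ^ 2 + 2 * Q ^ 2) * X := by ring
        rw [this]
        gcongr
        nlinarith [mul_nonneg hS hQ]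

/-! ### the finite weighted shifts -/

noncomputable def bet (b : ℝ) (N j : ℕ) : ℝ := (((j : ℝ) + 1) / ((N : ℝ) - j + 1)) ^ (b / 2)

lemma bet_pos {b : ℝ} {N j : ℕ} (h : j ≤ N) : 0 < bet b N j := by
  unfold bet
  have : (0 : ℝ) ≤ (N : ℝ) - j := by
    rw [sub_nonneg]; exact_mod_cast h
  positivity

lemma ratio_sq {b r : ℝ} {N i j : ℕ} (hji : j ≤ i) (hi : i ≤ N) :
    (bet b N i / bet b N j * r ^ (i - j)) ^ 2 = F b r j (N - i) (i - j) := by
  unfold bet F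
  have e1 : ((i - j : ℕ) : ℝ) = (i : ℝ) - j := by
    rw [Nat.cast_sub hji]
  have e2 : ((N - i : ℕ) : ℝ) = (N : ℝ) - i := by
    rw [Nat.cast_sub hi]
  have h1 : (0 : ℝ) ≤ (N : ℝ) - i := by
    rw [sub_nonneg]; exact_mod_cast hi
  have h2 : (j : ℝ) ≤ i := by exact_mod_cast hji
  have h3 : (0 : ℝ) ≤ (N : ℝ) - j := by linarith
  rw [e1, e2, mul_pow, ← pow_mul, mul_comm (i - j) 2]
  congr 1
  rw [← Real.div_rpow (by positivity) (by positivity), ← Real.rpow_natCast, ← Real.rpow_mul (by positivity)]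
  congr 1
  · field_simp
    ring
  · push_cast
    ring

/-- the weighted shift on `ℂ^{N+1}` -/
noncomputable def TN (b : ℝ) (N : ℕ) : Matrix (Fin (N + 1)) (Fin (N + 1)) ℂ :=
  fun i j => if (i : ℕ) = j + 1 then ((bet b N i / bet b N j : ℝ) : ℂ) else 0

/-- its resolvent at `z` -/
noncomputable def RN (b : ℝ) (N : ℕ) (z : ℂ) : Matrix (Fin (N + 1)) (Fin (N + 1)) ℂ :=
  fun i j => if (j : ℕ) ≤ i then ((bet b N i / bet b N j : ℝ) : ℂ) * z⁻¹ ^ ((i : ℕ) - j + 1) else 0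

lemma TR (b : ℝ) (N : ℕ) {z : ℂ} (hz : z ≠ 0) : (z • 1 - TN b N) * RN b N z = 1 := by
  ext i j
  rw [sub_mul, smul_mul_assoc, one_mul, Matrix.sub_apply, Matrix.smul_apply, smul_eq_mul,
    Matrix.mul_apply]
  have hbj : (bet b N j : ℂ) ≠ 0 := by
    exact_mod_cast (bet_pos (Nat.lt_succ_iff.mp j.2)).ne'
  by_cases hi : (i : ℕ) = 0
  · have h1 : ∑ l, TN b N i l * RN b N z l j = 0 := by
      apply sum_eq_zero
      intro l _
      have : ¬ ((i : ℕ) = l + 1) := by omega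
      simp [TN, this]
    rw [h1, sub_zero]
    by_cases hij : i = j
    · subst hij
      simp [RN, hz, hbj]
    · have : ¬ ((j : ℕ) ≤ i) := by
        intro h
        apply hij
        ext
        omega
      simp [RN, this, hij]
  · have hlt : (i : ℕ) - 1 < N + 1 := by omega
    set l0 : Fin (N + 1) := ⟨(i : ℕ) - 1, hlt⟩ with hl0
    have hil : (i : ℕ) = l0 + 1 := by simp [hl0]; omega
    have h1 : ∑ l, TN b N i l * RN b N z l j = TN b N i l0 * RN b N z l0 j := by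
      apply sum_eq_single l0
      · intro l _ hne
        have : ¬ ((i : ℕ) = l + 1) := by
          intro h
          apply hne
          ext
          omega
        simp [TN, this]
      · intro h
        exact absurd (mem_univ _) h
    rw [h1]
    have hbl : (bet b N l0 : ℂ) ≠ 0 := by
      exact_mod_cast (bet_pos (Nat.lt_succ_iff.mp l0.2)).ne'
    by_cases hji : (j : ℕ) ≤ i
    · by_cases hij : i = j
      · subst hij
        have : ¬ ((i : ℕ) ≤ l0) := by omega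
        simp only [RN, TN, le_refl, if_true, this, if_false, mul_zero, sub_zero, Nat.sub_self,
          zero_add, pow_one, Matrix.one_apply_eq]
        push_cast
        field_simp
      · have hjl : (j : ℕ) ≤ l0 := by
          have : (i : ℕ) ≠ j := fun h => hij (Fin.ext h)
          omega
        simp only [RN, TN, hil, hjl, if_true]
        have e1 : (l0 : ℕ) + 1 - j + 1 = ((l0 : ℕ) - j + 1) + 1 := by omega
        have hle : (j : ℕ) ≤ (l0 : ℕ) + 1 := by omega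
        rw [if_pos hle, e1, pow_succ, Matrix.one_apply_ne hij]
        push_cast
        field_simp
        ring
    · have hjl : ¬ ((j : ℕ) ≤ l0) := by omega
      have hij : i ≠ j := by
        intro h
        apply hji
        rw [h]
      simp [RN, hji, hjl, hij]

lemma RT (b : ℝ) (N : ℕ) {z : ℂ} (hz : z ≠ 0) : RN b N z * (z • 1 - TN b N) = 1 :=
  mul_eq_one_comm.mp (TR b N hz)

lemma ratio_near {b : ℝ} (hb : 0 < b) {r : ℝ} (hr0 : 0 ≤ r) {N i j : ℕ} (hji : j ≤ i)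
    (hi : i ≤ N) (h1 : i - j ≤ j + 1) (h2 : i - j ≤ N - i + 1) :
    bet b N i / bet b N j * r ^ (i - j) ≤ 2 ^ b * r ^ (i - j) := by
  have hpos : 0 ≤ bet b N i / bet b N j :=
    (div_pos (bet_pos hi) (bet_pos (hji.trans hi))).le
  have hF := F_near hb hr0 h1 h2
  rw [← ratio_sq hji hi] at hF
  have h4 : (4 : ℝ) ^ b * r ^ (2 * (i - j)) = (2 ^ b * r ^ (i - j)) ^ 2 := by
    rw [mul_pow, ← pow_mul, mul_comm (i - j) 2]
    congr 1
    rw [← Real.rpow_natCast, ← Real.rpow_mul (by norm_num), mul_comm b, Real.rpow_mul (by norm_num)]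
    norm_num
  rw [h4] at hF
  exact (sq_le_sq₀ (by positivity) (by positivity)).mp hF

lemma RN_bound {b : ℝ} (hb : 0 < b) (hb1 : b ≠ 1) : ∃ C : ℝ, 0 < C ∧ ∀ (N : ℕ) (z : ℂ),
    1 < ‖z‖ → ‖Matrix.toEuclideanCLM (𝕜 := ℂ) (RN b N z)‖ ≤ C * (1 - ‖z‖⁻¹) ^ (-(max b 1)) := by
  obtain ⟨C, hC, hhs⟩ := hs_bound hb hb1
  refine ⟨2 * (2 ^ b + √C), by positivity, ?_⟩
  intro N z hz
  set r : ℝ := ‖z‖⁻¹ with hr
  have hr0 : 0 < r := by positivity
  have hr1 : r < 1 := inv_lt_one_of_one_lt₀ hz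
  have ht : 0 < 1 - r := by linarith
  set s := max b 1 with hs
  have hs1 : 1 ≤ s := le_max_right _ _
  set B1 : Fin (N + 1) → Fin (N + 1) → ℝ := fun i j =>
    if (j : ℕ) ≤ i ∧ ((i : ℕ) - j ≤ j + 1 ∧ (i : ℕ) - j ≤ N - i + 1) then
      2 ^ b * r ^ ((i : ℕ) - j) else 0 with hB1
  set B2 : Fin (N + 1) → Fin (N + 1) → ℝ := fun i j =>
    if (j : ℕ) ≤ i ∧ ¬ ((i : ℕ) - j ≤ j + 1 ∧ (i : ℕ) - j ≤ N - i + 1) then
      bet b N i / bet b N j * r ^ ((i : ℕ) - j) else 0 with hB2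
  set u : ℕ → ℝ := fun k => 2 ^ b * r ^ k with hu
  have hu0 : ∀ k, 0 ≤ u k := fun k => by simp only [hu]; positivity
  have hB1u : ∀ i j, B1 i j ≤ (if (j : ℕ) ≤ i then u ((i : ℕ) - j) else 0) := by
    intro i j
    simp only [hB1]
    by_cases h1 : (j : ℕ) ≤ i
    · by_cases h2 : ((i : ℕ) - j ≤ j + 1 ∧ (i : ℕ) - j ≤ N - i + 1)
      · simp [h1, h2, hu]
      · simp only [h1, h2, and_false, if_false, if_true]
        exact hu0 _
    · simp [h1]
  have hU : ∑ k ∈ range (N + 1), u k ≤ 2 ^ b * (1 - r)⁻¹ := by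
    simp only [hu, ← mul_sum]
    gcongr
    exact geom_le hr0.le hr1 _
  have hmain := op_bound (RN b N z) B1 B2 (S := 2 ^ b * (1 - r)⁻¹) (Q := √C * (1 - r) ^ (-s))
    (by
      intro i j
      simp only [hB1]
      split_ifs
      · positivity
      · exact le_rfl)
    (by
      intro i j
      have hi : (i : ℕ) ≤ N := Nat.lt_succ_iff.mp i.2
      by_cases h1 : (j : ℕ) ≤ i
      · have hpos : 0 ≤ bet b N i / bet b N j :=
          (div_pos (bet_pos hi) (bet_pos (h1.trans hi))).le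
        have hn : ‖RN b N z i j‖ ≤ bet b N i / bet b N j * r ^ ((i : ℕ) - j) := by
          simp only [RN, h1, if_true]
          rw [norm_mul, Complex.norm_real, Real.norm_of_nonneg hpos, norm_pow, norm_inv, pow_succ]
          have : r ^ ((i : ℕ) - j) * r ≤ r ^ ((i : ℕ) - j) :=
            mul_le_of_le_one_right (by positivity) hr1.le
          gcongr
        refine hn.trans ?_
        by_cases h2 : ((i : ℕ) - j ≤ j + 1 ∧ (i : ℕ) - j ≤ N - i + 1)
        · simp only [hB1, hB2, h1, h2, and_true, not_true_eq_false, and_false, if_true, if_false,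
            add_zero]
          exact ratio_near hb hr0.le h1 hi h2.1 h2.2
        · simp only [hB1, hB2, h1, h2, and_false, not_false_eq_true, and_true, if_true, if_false,
            zero_add]
          exact le_rfl
      · simp only [RN, hB1, hB2, h1, false_and, if_false, add_zero, norm_zero, le_refl])
    (by positivity) (by positivity)
    (by
      intro i
      refine (sum_le_sum fun j _ => hB1u i j).trans ?_
      have := Fin.sum_univ_eq_sum_range (fun j => if j ≤ (i : ℕ) then u ((i : ℕ) - j) else 0) (N + 1)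
      rw [this]
      exact (sum_shift' hu0 _ _ i.2).trans hU)
    (by
      intro j
      refine (sum_le_sum fun i _ => hB1u i j).trans ?_
      have := Fin.sum_univ_eq_sum_range (fun i => if (j : ℕ) ≤ i then u (i - (j : ℕ)) else 0) (N + 1)
      rw [this]
      exact (sum_shift hu0 _ _).trans hU)
    (by
      have e1 : ∑ i, ∑ j, (B2 i j) ^ 2 = ∑ i ∈ range (N + 1), ∑ j ∈ range (N + 1),
        (if j ≤ i ∧ ¬ (i - j ≤ j + 1 ∧ i - j ≤ N - i + 1) then F b r j (N - i) (i - j) else 0) := by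
        rw [← Fin.sum_univ_eq_sum_range (fun i => ∑ j ∈ range (N + 1),
          (if j ≤ i ∧ ¬ (i - j ≤ j + 1 ∧ i - j ≤ N - i + 1) then F b r j (N - i) (i - j) else 0))]
        apply sum_congr rfl
        intro i _
        rw [← Fin.sum_univ_eq_sum_range (fun j =>
          (if j ≤ (i : ℕ) ∧ ¬ ((i : ℕ) - j ≤ j + 1 ∧ (i : ℕ) - j ≤ N - i + 1) then
            F b r j (N - i) ((i : ℕ) - j) else 0))]
        apply sum_congr rfl
        intro j _
        have hi : (i : ℕ) ≤ N := Nat.lt_succ_iff.mp i.2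
        simp only [hB2]
        split_ifs with h
        · rw [ratio_sq h.1 hi]
        · norm_num
      rw [e1]
      refine (hhs r hr0.le hr1 N).trans (le_of_eq ?_)
      rw [mul_pow, Real.sq_sqrt hC.le, ← Real.rpow_natCast ((1 - r) ^ (-s)) 2, ← Real.rpow_mul ht.le]
      congr 2
      push_cast
      ring)
  refine hmain.trans ?_
  have h6 : (1 - r)⁻¹ ≤ (1 - r) ^ (-s) := by
    rw [← Real.rpow_neg_one]
    apply Real.rpow_le_rpow_of_exponent_ge ht (by linarith)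
    linarith
  calc 2 * (2 ^ b * (1 - r)⁻¹ + √C * (1 - r) ^ (-s))
      ≤ 2 * (2 ^ b * (1 - r) ^ (-s) + √C * (1 - r) ^ (-s)) := by gcongr
    _ = _ := by ring

lemma TN_bound {b : ℝ} (hb : 0 < b) (N : ℕ) :
    ‖Matrix.toEuclideanCLM (𝕜 := ℂ) (TN b N)‖ ≤ 2 * (2 ^ b + 0) := by
  apply op_bound (TN b N) (fun i j => if (i : ℕ) = j + 1 then 2 ^ b else 0) (fun _ _ => 0)
  · intro i j
    split_ifs
    · positivity
    · exact le_rfl
  · intro i j
    rw [add_zero]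
    by_cases h : (i : ℕ) = j + 1
    · have hi : (i : ℕ) ≤ N := Nat.lt_succ_iff.mp i.2
      have hji : (j : ℕ) ≤ i := by omega
      have hpos : 0 ≤ bet b N i / bet b N j :=
        (div_pos (bet_pos hi) (bet_pos (hji.trans hi))).le
      have := ratio_near hb (r := 1) (by norm_num) hji hi (by omega) (by omega)
      simp only [one_pow, mul_one] at this
      simp only [TN, h, if_true]
      rw [h] at this
      rw [Complex.norm_real, Real.norm_of_nonneg (by rw [← h]; exact hpos)]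
      exact this
    · simp [TN, h]
  · positivity
  · exact le_rfl
  · intro i
    by_cases hi : (i : ℕ) = 0
    · have : ∀ j : Fin (N + 1), (if (i : ℕ) = j + 1 then (2 : ℝ) ^ b else 0) = 0 := by
        intro j
        rw [if_neg]; omega
      simp only [this, sum_const_zero]
      positivity
    · rw [sum_eq_single (⟨(i : ℕ) - 1, by omega⟩ : Fin (N + 1))]
      · split_ifs <;> first | exact le_rfl | positivity
      · intro j _ hne
        rw [if_neg]
        intro h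
        apply hne
        ext
        simp only
        omega
      · intro h
        exact absurd (mem_univ _) h
  · intro j
    by_cases hj : (j : ℕ) = N
    · have : ∀ i : Fin (N + 1), (if (i : ℕ) = j + 1 then (2 : ℝ) ^ b else 0) = 0 := by
        intro i
        rw [if_neg]; omega
      simp only [this, sum_const_zero]
      positivity
    · rw [sum_eq_single (⟨(j : ℕ) + 1, by omega⟩ : Fin (N + 1))]
      · split_ifs <;> first | exact le_rfl | positivity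
      · intro i _ hne
        rw [if_neg]
        intro h
        apply hne
        ext
        simp only
        omega
      · intro h
        exact absurd (mem_univ _) h
  · simp

/-! ### direct sums -/

universe u

abbrev EN (N : ℕ) := EuclideanSpace ℂ (Fin (N + 1))

noncomputable abbrev HS := lp (fun N : ULift.{u} ℕ => EN N.down) 2

lemma dsum_key (A : ∀ N, EN N →L[ℂ] EN N) (M : ℝ) (hM : ∀ N, ‖A N‖ ≤ M) (x : HS.{u})
    (N : ULift.{u} ℕ) :
    ‖A N.down (x N)‖ ≤ ‖(((M : ℂ) • x : HS.{u}) : ∀ N : ULift.{u} ℕ, EN N.down) N‖ := by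
  have hM0 : 0 ≤ M := (norm_nonneg _).trans (hM 0)
  rw [lp.coeFn_smul, Pi.smul_apply, norm_smul, Complex.norm_real, Real.norm_of_nonneg hM0]
  exact (A N.down).le_of_opNorm_le (hM N.down) (x N)

noncomputable def dsumLin (A : ∀ N, EN N →L[ℂ] EN N) (M : ℝ) (hM : ∀ N, ‖A N‖ ≤ M) :
    HS.{u} →ₗ[ℂ] HS.{u} where
  toFun := fun x => ⟨fun N => A N.down (x N), (lp.memℓp ((M : ℂ) • x)).mono' (dsum_key A M hM x)⟩
  map_add' := by
    intro x y
    apply lp.ext
    ext1 N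
    show A N.down ((x + y) N) = A N.down (x N) + A N.down (y N)
    rw [lp.coeFn_add, Pi.add_apply, map_add]
  map_smul' := by
    intro c x
    apply lp.ext
    ext1 N
    show A N.down ((c • x) N) = c • A N.down (x N)
    rw [lp.coeFn_smul, Pi.smul_apply, map_smul]

lemma dsumLin_bound (A : ∀ N, EN N →L[ℂ] EN N) (M : ℝ) (hM : ∀ N, ‖A N‖ ≤ M) (x : HS.{u}) :
    ‖dsumLin A M hM x‖ ≤ M * ‖x‖ := by
  have hM0 : 0 ≤ M := (norm_nonneg _).trans (hM 0)
  have h1 : ‖dsumLin A M hM x‖ ≤ ‖((M : ℂ) • x : HS.{u})‖ :=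
    lp.norm_mono (by norm_num) (dsum_key A M hM x)
  rw [norm_smul, Complex.norm_real, Real.norm_of_nonneg hM0] at h1
  exact h1

noncomputable def dsum (A : ∀ N, EN N →L[ℂ] EN N) (M : ℝ) (hM : ∀ N, ‖A N‖ ≤ M) :
    HS.{u} →L[ℂ] HS.{u} :=
  (dsumLin A M hM).mkContinuous M (dsumLin_bound A M hM)

lemma dsum_apply (A : ∀ N, EN N →L[ℂ] EN N) (M : ℝ) (hM : ∀ N, ‖A N‖ ≤ M) (x : HS.{u})
    (N : ULift.{u} ℕ) : (dsum A M hM x : ∀ N : ULift.{u} ℕ, EN N.down) N = A N.down (x N) := rfl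

lemma dsum_norm_le (A : ∀ N, EN N →L[ℂ] EN N) (M : ℝ) (hM : ∀ N, ‖A N‖ ≤ M) :
    ‖(dsum A M hM : HS.{u} →L[ℂ] HS.{u})‖ ≤ M :=
  LinearMap.mkContinuous_norm_le _ ((norm_nonneg _).trans (hM 0)) _

/-- the operator -/
noncomputable def TT {b : ℝ} (hb : 0 < b) : HS.{u} →L[ℂ] HS.{u} :=
  dsum (fun N => Matrix.toEuclideanCLM (𝕜 := ℂ) (TN b N)) (2 * (2 ^ b + 0)) (TN_bound hb)

lemma TT_inv {b : ℝ} (hb : 0 < b) {z : ℂ} (hz : z ≠ 0) {M : ℝ}
    (hM : ∀ N, ‖Matrix.toEuclideanCLM (𝕜 := ℂ) (RN b N z)‖ ≤ M) :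
    (algebraMap ℂ (HS.{u} →L[ℂ] HS.{u}) z - TT hb) *
      dsum (fun N => Matrix.toEuclideanCLM (𝕜 := ℂ) (RN b N z)) M hM = 1 ∧
    dsum (fun N => Matrix.toEuclideanCLM (𝕜 := ℂ) (RN b N z)) M hM *
      (algebraMap ℂ (HS.{u} →L[ℂ] HS.{u}) z - TT hb) = 1 := by
  have e1 : ∀ N, (z • 1 - Matrix.toEuclideanCLM (𝕜 := ℂ) (TN b N)) *
      Matrix.toEuclideanCLM (𝕜 := ℂ) (RN b N z) = 1 := by
    intro N
    have := congrArg (Matrix.toEuclideanCLM (n := Fin (N + 1)) (𝕜 := ℂ)) (TR b N hz)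
    simpa only [map_mul, map_sub, map_smul, map_one] using this
  have e2 : ∀ N, Matrix.toEuclideanCLM (𝕜 := ℂ) (RN b N z) *
      (z • 1 - Matrix.toEuclideanCLM (𝕜 := ℂ) (TN b N)) = 1 := by
    intro N
    have := congrArg (Matrix.toEuclideanCLM (n := Fin (N + 1)) (𝕜 := ℂ)) (RT b N hz)
    simpa only [map_mul, map_sub, map_smul, map_one] using this
  rw [Algebra.algebraMap_eq_smul_one]
  constructor
  · ext x : 1
    apply lp.ext
    ext1 N
    exact DFunLike.congr_fun (e1 N.down) (x N)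
  · ext x : 1
    apply lp.ext
    ext1 N
    exact DFunLike.congr_fun (e2 N.down) (x N)

/-! ### growth of powers -/

lemma TN_apply (b : ℝ) (N : ℕ) {k : ℕ} (hk : k + 1 ≤ N) (c : ℂ) :
    Matrix.toEuclideanCLM (𝕜 := ℂ) (TN b N)
      (EuclideanSpace.single (⟨k, by omega⟩ : Fin (N + 1)) c) =
    EuclideanSpace.single (⟨k + 1, by omega⟩ : Fin (N + 1))
      (((bet b N (k + 1) / bet b N k : ℝ) : ℂ) * c) := by
  ext i
  rw [Matrix.ofLp_toEuclideanCLM]
  simp only [PiLp.ofLp_single, Matrix.mulVec_single, op_smul_eq_smul,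
    Pi.smul_apply, smul_eq_mul, Matrix.col_apply, TN]
  by_cases h : (i : ℕ) = k + 1
  · have h2 : i = (⟨k + 1, by omega⟩ : Fin (N + 1)) := Fin.ext h
    rw [if_pos h, h, h2, Pi.single_eq_same, mul_comm]
  · have h2 : i ≠ (⟨k + 1, by omega⟩ : Fin (N + 1)) := fun h' => h (by rw [h'])
    rw [if_neg h, Pi.single_eq_of_ne h2, mul_zero]

lemma TN_pow (b : ℝ) (N : ℕ) (k : ℕ) (hk : k ≤ N) :
    (Matrix.toEuclideanCLM (𝕜 := ℂ) (TN b N) ^ k)
      (EuclideanSpace.single (⟨0, by omega⟩ : Fin (N + 1)) 1) =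
    EuclideanSpace.single (⟨k, by omega⟩ : Fin (N + 1)) ((bet b N k / bet b N 0 : ℝ) : ℂ) := by
  induction k with
  | zero =>
    have : bet b N 0 ≠ 0 := (bet_pos (Nat.zero_le _)).ne'
    simp [this]
  | succ k ih =>
    rw [pow_succ']
    show Matrix.toEuclideanCLM (𝕜 := ℂ) (TN b N) ((Matrix.toEuclideanCLM (𝕜 := ℂ) (TN b N) ^ k)
      (EuclideanSpace.single (⟨0, by omega⟩ : Fin (N + 1)) 1)) = _
    rw [ih (by omega), TN_apply b N hk]
    congr 1
    have h0 : bet b N k ≠ 0 := (bet_pos (by omega)).ne'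
    have : bet b N 0 ≠ 0 := (bet_pos (Nat.zero_le _)).ne'
    rw [← Complex.ofReal_mul]
    congr 1
    field_simp

lemma TT_pow_apply {b : ℝ} (hb : 0 < b) (k : ℕ) (x : HS.{u}) (N : ULift.{u} ℕ) :
    ((TT hb ^ k) x : ∀ N : ULift.{u} ℕ, EN N.down) N =
      (Matrix.toEuclideanCLM (𝕜 := ℂ) (TN b N.down) ^ k) (x N) := by
  induction k generalizing x with
  | zero => simp
  | succ k ih =>
    rw [pow_succ, pow_succ]
    show ((TT hb ^ k) (TT hb x) : ∀ N : ULift.{u} ℕ, EN N.down) N =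
      (Matrix.toEuclideanCLM (𝕜 := ℂ) (TN b N.down) ^ k)
        (Matrix.toEuclideanCLM (𝕜 := ℂ) (TN b N.down) (x N))
    rw [ih]
    rfl

lemma bet_ratio {b : ℝ} (n : ℕ) : bet b n n / bet b n 0 = ((n : ℝ) + 1) ^ b := by
  unfold bet
  rw [← Real.div_rpow (by simp; positivity) (by simp; positivity)]
  have : ((n : ℝ) + 1) / ((n : ℝ) - n + 1) / ((((0 : ℕ) : ℝ) + 1) / ((n : ℝ) - ((0 : ℕ) : ℝ) + 1)) =
      ((n : ℝ) + 1) ^ (2 : ℝ) := by
    have : (n : ℝ) + 1 ≠ 0 := by positivity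
    simp
    field_simp
  rw [this, ← Real.rpow_mul (by positivity)]
  congr 1
  ring

lemma TT_growth {b : ℝ} (hb : 0 < b) (n : ℕ) :
    ((n : ℝ) + 1) ^ b ≤ ‖(TT hb : HS.{u} →L[ℂ] HS.{u}) ^ n‖ := by
  set x : HS.{u} := lp.single 2 (ULift.up n)
    (EuclideanSpace.single (⟨0, by omega⟩ : Fin (n + 1)) (1 : ℂ)) with hx
  have hxn : ‖x‖ = 1 := by
    rw [hx, lp.norm_single (by norm_num)]
    simp
  have h1 : ‖(((TT hb) ^ n) x : ∀ N : ULift.{u} ℕ, EN N.down) (ULift.up n)‖ =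
      ((n : ℝ) + 1) ^ b := by
    rw [TT_pow_apply, hx, lp.single_apply_self, TN_pow b n n le_rfl, bet_ratio,
      PiLp.norm_single, Complex.norm_real, Real.norm_of_nonneg (by positivity)]
  rw [← h1]
  calc _ ≤ ‖((TT hb) ^ n) x‖ := lp.norm_apply_le_norm (by norm_num) _ _
    _ ≤ ‖(TT hb : HS.{u} →L[ℂ] HS.{u}) ^ n‖ * ‖x‖ := ContinuousLinearMap.le_opNorm _ _
    _ = _ := by rw [hxn, mul_one]

/-! ### definitions of the problem -/

/-- The condition `(R_α)`: the spectrum of `T` lies in the closed unit disc and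
`‖(z - T)⁻¹‖ ≤ c / (|z| - 1)^α` for `1 < |z| ≤ 2`. -/
def ResolventCondition {H : Type u} [NormedAddCommGroup H] [InnerProductSpace ℂ H]
    (α : ℝ) (T : H →L[ℂ] H) : Prop :=
  (∀ z ∈ spectrum ℂ T, ‖z‖ ≤ 1) ∧
  ∃ c : ℝ, 0 < c ∧ ∀ z : ℂ, 1 < ‖z‖ → ‖z‖ ≤ 2 → ‖resolvent T z‖ ≤ c / (‖z‖ - 1) ^ α

/-- The exponents `γ ≥ 0` such that `sup_n ‖T^n‖ / (1+n)^γ < ∞` for every complex Hilbert space
`H` and every bounded operator `T` on `H` satisfying `(R_α)`. -/
def admissibleExponents (α : ℝ) : Set ℝ :=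
  {γ : ℝ | 0 ≤ γ ∧ ∀ (H : Type u) [NormedAddCommGroup H] [InnerProductSpace ℂ H]
    [CompleteSpace H] (T : H →L[ℂ] H), ResolventCondition α T →
      BddAbove (Set.range fun n : ℕ => ‖T ^ n‖ / (1 + (n : ℝ)) ^ γ)}

/-- The optimal exponent `γ(α)`. -/
noncomputable def optimalExponent (α : ℝ) : ℝ := sInf (admissibleExponents.{u} α)

lemma TT_cond {b : ℝ} (hb : 0 < b) (hb1 : b ≠ 1) {α : ℝ} (hα : max b 1 ≤ α) :
    ResolventCondition α (TT hb : HS.{u} →L[ℂ] HS.{u}) := by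
  obtain ⟨C, hC, hbound⟩ := RN_bound hb hb1
  constructor
  · intro z hz
    by_contra hcon
    push Not at hcon
    have hz0 : z ≠ 0 := by
      intro h
      rw [h, norm_zero] at hcon
      linarith
    obtain ⟨h1, h2⟩ := TT_inv.{u} hb hz0 (fun N => hbound N z hcon)
    apply hz
    exact ⟨⟨_, _, h1, h2⟩, rfl⟩
  · refine ⟨C * 2 ^ α, by positivity, ?_⟩
    intro z hz1 hz2
    have hz0 : z ≠ 0 := by
      intro h
      rw [h, norm_zero] at hz1
      linarith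
    obtain ⟨h1, h2⟩ := TT_inv.{u} hb hz0 (fun N => hbound N z hz1)
    have h3 : resolvent (TT hb : HS.{u} →L[ℂ] HS.{u}) z =
        dsum (fun N => Matrix.toEuclideanCLM (𝕜 := ℂ) (RN b N z)) _ (fun N => hbound N z hz1) := by
      unfold resolvent
      exact Ring.inverse_unit ⟨_, _, h1, h2⟩
    rw [h3]
    refine (dsum_norm_le _ _ _).trans ?_
    have hn : 0 < ‖z‖ := by linarith
    have ht : 0 < ‖z‖ - 1 := by linarith
    have h4 : (‖z‖ - 1) / 2 ≤ 1 - ‖z‖⁻¹ := by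
      have : 1 - ‖z‖⁻¹ = (‖z‖ - 1) / ‖z‖ := by field_simp
      rw [this]
      gcongr
    have h5 : (1 - ‖z‖⁻¹) ^ (-(max b 1)) ≤ ((‖z‖ - 1) / 2) ^ (-(max b 1)) := by
      have hm : 0 ≤ max b 1 := by positivity
      rw [Real.rpow_neg (by linarith), Real.rpow_neg (by positivity)]
      gcongr
    have h6 : ((‖z‖ - 1) / 2) ^ (-(max b 1)) ≤ ((‖z‖ - 1) / 2) ^ (-α) := by
      apply Real.rpow_le_rpow_of_exponent_ge (by positivity) (by linarith)
      linarith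
    calc C * (1 - ‖z‖⁻¹) ^ (-(max b 1)) ≤ C * ((‖z‖ - 1) / 2) ^ (-α) := by
          gcongr
          exact h5.trans h6
      _ = C * 2 ^ α / (‖z‖ - 1) ^ α := by
          rw [Real.rpow_neg (by positivity), Real.div_rpow ht.le (by norm_num)]
          field_simp


lemma upper {H : Type u} [NormedAddCommGroup H] [InnerProductSpace ℂ H] [CompleteSpace H]
    {α : ℝ} (T : H →L[ℂ] H) (hT : ResolventCondition α T) :
    ∃ C : ℝ, ∀ n : ℕ, ‖T ^ n‖ ≤ C * (1 + (n : ℝ)) ^ α := by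
  obtain ⟨hspec, c, hc, hres⟩ := hT
  refine ⟨Real.exp 1 * c, ?_⟩
  intro n
  set ρ : ℝ := 1 + 1 / ((n : ℝ) + 1) with hρ
  have hn1 : 0 < 1 / ((n : ℝ) + 1) := by positivity
  have hn1' : 1 / ((n : ℝ) + 1) ≤ 1 := by
    rw [div_le_one (by positivity)]
    have : (0 : ℝ) ≤ n := by positivity
    linarith
  have hρ1 : 1 < ρ := by linarith
  have hρ2 : ρ ≤ 2 := by linarith
  set R : ℝ≥0 := ⟨ρ⁻¹, by positivity⟩ with hR
  have hRpos : 0 < R := by
    rw [← NNReal.coe_pos]; exact inv_pos.mpr (by linarith)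
  have hRcoe : (R : ℝ) = ρ⁻¹ := rfl
  have hR1 : (R : ℝ) < 1 := inv_lt_one_of_one_lt₀ hρ1
  have hsr : spectralRadius ℂ T ≤ 1 := by
    unfold spectralRadius
    refine iSup₂_le fun z hz => ?_
    have := hspec z hz
    exact_mod_cast this
  have hlt : (R : ℝ≥0∞) < (spectralRadius ℂ T)⁻¹ := by
    calc (R : ℝ≥0∞) < 1 := by exact_mod_cast hR1
      _ ≤ (spectralRadius ℂ T)⁻¹ := ENNReal.one_le_inv.mpr hsr
  have H₁ := (spectrum.differentiableOn_inverse_one_sub_smul hlt).hasFPowerSeriesOnBall hRpos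
  have H₂ := spectrum.hasFPowerSeriesOnBall_inverse_one_sub_smul ℂ T
  have H₃ := H₂.hasFPowerSeriesAt.eq_formalMultilinearSeries H₁.hasFPowerSeriesAt
  have h4 : ‖T ^ n‖ = ‖cauchyPowerSeries (fun z : ℂ => Ring.inverse (1 - z • T)) 0 R n‖ := by
    rw [← H₃, ContinuousMultilinearMap.norm_mkPiRing]
  rw [h4]
  set K : ℝ := ρ * (c / (ρ - 1) ^ α) with hK
  have hfb : ∀ w : ℂ, ‖w‖ = ρ⁻¹ → ‖Ring.inverse (1 - w • T)‖ ≤ K := by
    intro w hw
    have hw0 : w ≠ 0 := by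
      intro h
      rw [h, norm_zero] at hw
      have : 0 < ρ⁻¹ := by positivity
      linarith
    have hz : ‖w⁻¹‖ = ρ := by rw [norm_inv, hw, inv_inv]
    have hmem : w⁻¹ ∈ resolventSet ℂ T := by
      by_contra hcon
      have := hspec w⁻¹ hcon
      rw [hz] at this
      linarith
    obtain ⟨U, hU⟩ := hmem
    have hres' : resolvent T w⁻¹ = (U⁻¹ : (H →L[ℂ] H)ˣ) := by
      unfold resolvent
      rw [← hU]
      exact Ring.inverse_unit U
    have h5 : (1 - w • T) = w • (U : H →L[ℂ] H) := by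
      rw [hU, Algebra.algebraMap_eq_smul_one, smul_sub, smul_smul, mul_inv_cancel₀ hw0, one_smul]
    have h6 : Ring.inverse (1 - w • T) = w⁻¹ • resolvent T w⁻¹ := by
      rw [hres', h5]
      refine Ring.inverse_unit ⟨w • (U : H →L[ℂ] H), w⁻¹ • ((U⁻¹ : (H →L[ℂ] H)ˣ) : H →L[ℂ] H), ?_, ?_⟩
      · rw [smul_mul_smul_comm, mul_inv_cancel₀ hw0, one_smul, Units.mul_inv]
      · rw [smul_mul_smul_comm, inv_mul_cancel₀ hw0, one_smul, Units.inv_mul]
    rw [h6, norm_smul, hz, hK]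
    gcongr
    have := hres w⁻¹ (by rw [hz]; exact hρ1) (by rw [hz]; exact hρ2)
    rwa [hz] at this
  have h7 := norm_cauchyPowerSeries_le (fun z : ℂ => Ring.inverse (1 - z • T)) 0 R n
  have h8 : ∫ θ in (0)..2 * Real.pi, ‖Ring.inverse (1 - (circleMap 0 R θ) • T)‖ ≤ 2 * Real.pi * K := by
    have := intervalIntegral.norm_integral_le_of_norm_le_const (a := 0) (b := 2 * Real.pi) (C := K)
      (f := fun θ => ‖Ring.inverse (1 - (circleMap 0 R θ) • T)‖) (by
        intro θ _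
        rw [norm_norm]
        apply hfb
        rw [circleMap_zero, norm_mul, Complex.norm_exp_ofReal_mul_I, mul_one, Complex.norm_real, hRcoe]
        exact Real.norm_of_nonneg (by positivity))
    have hpi : |2 * Real.pi - 0| = 2 * Real.pi := by
      rw [sub_zero, abs_of_pos (by positivity)]
    rw [hpi] at this
    calc _ ≤ ‖∫ θ in (0)..2 * Real.pi, ‖Ring.inverse (1 - (circleMap 0 R θ) • T)‖‖ :=
          Real.le_norm_self _
      _ ≤ _ := this
      _ = _ := by ring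
  have hρn : ρ ^ (n + 1) ≤ Real.exp 1 := by
    have h9 : ρ ≤ Real.exp (1 / ((n : ℝ) + 1)) := by
      have := Real.add_one_le_exp (1 / ((n : ℝ) + 1))
      linarith
    calc ρ ^ (n + 1) ≤ (Real.exp (1 / ((n : ℝ) + 1))) ^ (n + 1) := by gcongr
      _ = Real.exp 1 := by
        rw [← Real.exp_nat_mul]
        congr 1
        push_cast
        field_simp
  have hρα : (ρ - 1) ^ α = ((1 + (n : ℝ)) ^ α)⁻¹ := by
    have : ρ - 1 = (1 + (n : ℝ))⁻¹ := by rw [hρ]; ring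
    rw [this, Real.inv_rpow (by positivity)]
  calc _ ≤ _ := h7
    _ ≤ ((2 * Real.pi)⁻¹ * (2 * Real.pi * K)) * |(R : ℝ)|⁻¹ ^ n := by
      gcongr
    _ = ρ ^ (n + 1) * c * (1 + (n : ℝ)) ^ α := by
      rw [hRcoe, abs_of_pos (by positivity), inv_inv, hK, hρα]
      have : Real.pi ≠ 0 := Real.pi_ne_zero
      field_simp
      ring
    _ ≤ Real.exp 1 * c * (1 + (n : ℝ)) ^ α := by gcongr

/-- `γ(α) = α` for every `α ≥ 1`; moreover, for `α > 1` the order `n^α` is attained. -/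
theorem result (α : ℝ) (hα : 1 ≤ α) :
    optimalExponent.{u} α = α ∧
    (1 < α → ∃ (H : Type u) (_ : NormedAddCommGroup H) (_ : InnerProductSpace ℂ H)
      (_ : CompleteSpace H) (T : H →L[ℂ] H), ResolventCondition α T ∧
        ∀ n : ℕ, (1 + (n : ℝ)) ^ α ≤ ‖T ^ n‖) := by
  constructor
  · refine IsLeast.csInf_eq ⟨⟨by linarith, ?_⟩, ?_⟩
    · intro H _ _ _ T hT
      obtain ⟨C, hC⟩ := upper T hT
      refine ⟨C, ?_⟩
      rintro _ ⟨n, rfl⟩
      show ‖T ^ n‖ / (1 + (n : ℝ)) ^ α ≤ C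
      rw [div_le_iff₀ (by positivity)]
      exact hC n
    · rintro γ ⟨hγ0, hγ⟩
      by_contra hcon
      push Not at hcon
      obtain ⟨b, hb0, hb1, hbm, hγb⟩ : ∃ b : ℝ, 0 < b ∧ b ≠ 1 ∧ max b 1 ≤ α ∧ γ < b := by
        rcases hα.eq_or_lt with h | h
        · refine ⟨(γ + 1) / 2, by positivity, ?_, ?_, ?_⟩
          · intro h1
            linarith
          · rw [max_le_iff]
            constructor <;> linarith
          · linarith
        · exact ⟨α, by linarith, h.ne', by rw [max_eq_left h.le], hcon⟩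
      obtain ⟨C, hC⟩ := hγ HS.{u} (TT hb0) (TT_cond hb0 hb1 hbm)
      have h1 : ∀ n : ℕ, ((n : ℝ) + 1) ^ (b - γ) ≤ C := by
        intro n
        have h2 := hC ⟨n, rfl⟩
        simp only at h2
        rw [div_le_iff₀ (by positivity)] at h2
        have h3 := (TT_growth.{u} hb0 n).trans h2
        rw [Real.rpow_sub (by positivity), div_le_iff₀ (by positivity)]
        rw [add_comm (1 : ℝ)] at h3
        exact h3
      have h4 : Tendsto (fun n : ℕ => ((n : ℝ) + 1) ^ (b - γ)) atTop atTop :=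
        (tendsto_rpow_atTop (by linarith : 0 < b - γ)).comp
          (tendsto_atTop_add_const_right _ _ tendsto_natCast_atTop_atTop)
      obtain ⟨n, hn⟩ := (h4.eventually_gt_atTop C).exists
      exact absurd (h1 n) (not_le.mpr hn)
  · intro h
    have h0 : 0 < α := by linarith
    refine ⟨HS.{u}, inferInstance, inferInstance, inferInstance, TT h0,
      TT_cond h0 h.ne' (by rw [max_eq_left h.le]), ?_⟩
    intro n
    rw [add_comm]
    exact TT_growth h0 n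

end Pool.Agent.Results.MP_45ac3c_an.GammaEqAlpha
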